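import Pool.Agent.Lib.MP_e6fef2_lc.V.Iface

/-!
# Module V_SSP: preservation of stationary sets in `V^B`
-/

universe u

open Cardinal

open scoped symmDiff

namespace Pool.Agent.Lib.MP_e6fef2_lc.H35

open Pool.Agent.Lib.MP_100a6c_lc
open BName
open H36 (om)

variable {B : Type u} [CompleteBooleanAlgebra B]

/-! ### The names of the countable ordinals -/

theorem mem_wn (z : BName B) (δ : W.{u}) : bmem z (wn δ) = ⨆ ξ, ⨆ _ : ξ < δ, beq z (wn ξ) := by
  rw [wn, mem_check]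
  refine le_antisymm (iSup_le fun x => iSup_le fun hx => ?_)
    (iSup_le fun ξ => iSup_le fun h => ?_)
  · obtain ⟨a, ha, rfl⟩ := Ordinal.mem_toZFSet_iff.1 hx
    have ha' : a < (Cardinal.aleph.{u} 1).ord := lt_trans ha (Ordinal.ToType.mk.symm δ).2
    refine le_iSup_of_le (Ordinal.ToType.mk ⟨a, ha'⟩) (le_iSup_of_le ?_ ?_)
    · rw [← Ordinal.ToType.mk.symm.lt_iff_lt, OrderIso.symm_apply_apply]
      exact ha
    · rw [wn]
      simp
  · refine le_iSup_of_le (Ordinal.ToType.mk.symm ξ).1.toZFSet (le_iSup_of_le ?_ le_rfl)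
    refine Ordinal.mem_toZFSet_iff.2 ⟨_, ?_, rfl⟩
    exact (Ordinal.ToType.mk.symm.lt_iff_lt).2 h

theorem mem_om1 (z : BName B) : bmem z (check om1) = ⨆ ξ : W.{u}, beq z (wn ξ) := by
  rw [om1, mem_check]
  refine le_antisymm (iSup_le fun x => iSup_le fun hx => ?_) (iSup_le fun ξ => ?_)
  · obtain ⟨a, ha, rfl⟩ := Ordinal.mem_toZFSet_iff.1 hx
    refine le_iSup_of_le (Ordinal.ToType.mk ⟨a, ha⟩) ?_
    rw [wn]
    simp
  · refine le_iSup_of_le (Ordinal.ToType.mk.symm ξ).1.toZFSet (le_iSup_of_le ?_ le_rfl)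
    exact Ordinal.mem_toZFSet_iff.2 ⟨_, (Ordinal.ToType.mk.symm ξ).2, rfl⟩

theorem wn_mem_om1 (ξ : W.{u}) : bmem (wn ξ : BName B) (check om1) = ⊤ := by
  rw [mem_om1]
  exact eq_top_iff.2 (le_iSup_of_le ξ (by rw [beq_refl]))

theorem wn_mem_wn {ξ δ : W.{u}} (h : ξ < δ) : bmem (wn ξ : BName B) (wn δ) = ⊤ := by
  rw [mem_wn]
  exact eq_top_iff.2 (le_iSup_of_le ξ (le_iSup_of_le h (by rw [beq_refl])))

theorem wn_beq {ξ η : W.{u}} (h : ξ ≠ η) : beq (wn ξ : BName B) (wn η) = ⊥ := by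
  refine beq_check_of_ne fun h1 => h ?_
  have h2 := Ordinal.toZFSet_injective h1
  exact Ordinal.ToType.mk.symm.injective (Subtype.ext h2)

theorem wn_mem_wn_of_not {ξ δ : W.{u}} (h : ¬ ξ < δ) : bmem (wn ξ : BName B) (wn δ) = ⊥ := by
  rw [mem_wn]
  refine eq_bot_iff.2 (iSup_le fun η => iSup_le fun hη => ?_)
  rw [wn_beq]
  rintro rfl
  exact h hη

/-! ### Quantifiers over the countable ordinals -/

/-- Use of a statement on all countable ordinals. -/
theorem forall_om1 {φ : BName B → B} {Γ : B} (h : Γ ≤ ⨅ a, (VB B).mem a (check om1) ⇨ φ a)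
    (ξ : W.{u}) : Γ ≤ φ (wn ξ) := by
  refine iInf_himp_apply h (wn ξ) le_rfl ?_
  show Γ ≤ bmem (wn ξ) (check om1)
  rw [wn_mem_om1]
  exact le_top

theorem le_forall_wn {φ : BName B → B} (hφ : Ext φ) {Γ : B} {δ : W.{u}}
    (h : ∀ ξ < δ, Γ ≤ φ (wn ξ)) : Γ ≤ ⨅ a, (VB B).mem a (wn δ) ⇨ φ a := by
  refine le_iInf fun a => ?_
  rw [le_himp_iff]
  show Γ ⊓ bmem a (wn δ) ≤ φ a
  rw [mem_wn, inf_iSup_eq]
  refine iSup_le fun ξ => ?_
  rw [inf_iSup_eq]
  refine iSup_le fun hξ => ?_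
  exact hφ.of_le' (x := wn ξ) inf_le_right (inf_le_left.trans (h ξ hξ))

theorem le_forall_om1 {φ : BName B → B} (hφ : Ext φ) {Γ : B}
    (h : ∀ ξ, Γ ≤ φ (wn ξ)) : Γ ≤ ⨅ a, (VB B).mem a (check om1) ⇨ φ a := by
  refine le_iInf fun a => ?_
  rw [le_himp_iff]
  show Γ ⊓ bmem a (check om1) ≤ φ a
  rw [mem_om1, inf_iSup_eq]
  refine iSup_le fun ξ => ?_
  exact hφ.of_le' (x := wn ξ) inf_le_right (inf_le_left.trans (h ξ))

/-! ### Stationary sets -/

/-- the name of the set of the nonzero elements of `C` -/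
noncomputable def cn (C : W.{u} → B) : BName B :=
  mk {ξ : W.{u} // ∃ a, a < ξ} (fun ξ => wn ξ.1) fun ξ => C ξ.1

theorem mem_cn (C : W.{u} → B) (z : BName B) :
    bmem z (cn C) = ⨆ ξ : {ξ : W.{u} // ∃ a, a < ξ}, C ξ.1 ⊓ beq z (wn ξ.1) := mem_mk _ _ z

theorem le_mem_cn (C : W.{u} → B) {a ξ : W.{u}} (h : a < ξ) : C ξ ≤ bmem (wn ξ) (cn C) := by
  rw [mem_cn]
  refine le_iSup_of_le ⟨ξ, a, h⟩ ?_
  rw [beq_refl, inf_top_eq]

theorem mem_cn_le (C : W.{u} → B) (ξ : W.{u}) : bmem (wn ξ) (cn C) ≤ C ξ := by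
  rw [mem_cn]
  refine iSup_le fun η => ?_
  by_cases h : ξ = η.1
  · rw [← h]; exact inf_le_left
  · rw [wn_beq h, inf_bot_eq]; exact bot_le

theorem tclub_le (C : W.{u} → B) : tclub C ≤ isClosedUnb (VB B) (cn C) (check om1) := by
  refine le_inf (le_inf ?_ ?_) ?_
  · rw [le_sub_iff]
    intro i
    show tclub C ⊓ _ ≤ bmem (wn i.1) (check om1)
    rw [wn_mem_om1]
    exact le_top
  · refine le_forall_om1 ?_ fun ξ => ?_
    · exact Ext.iSup fun b => (Ext.const _).inf (ext_VBmem_left b)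
    · refine (inf_le_left.trans (iInf_le _ ξ)).trans ?_
      refine iSup_le fun b => iSup_le fun hb => le_iSup_of_le (wn b) (le_inf ?_ ?_)
      · exact le_mem_cn C hb
      · show C b ≤ bmem (wn ξ) (wn b)
        rw [wn_mem_wn hb]; exact le_top
  · refine le_iInf fun d => ?_
    rw [le_himp_iff]
    have h0 : ∀ d : W.{u}, tclub C ⊓ ((⨆ a, (VB B).mem a (wn d)) ⊓
        ⨅ a, (VB B).mem a (wn d) ⇨ ⨆ b, (VB B).mem b (cn C) ⊓ (VB B).mem b (wn d) ⊓
          (VB B).mem a b) ≤ bmem (wn d) (cn C) := by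
      intro d
      have h1 : (⨆ a, (VB B).mem a (wn d)) ≤ ⨆ _ : ∃ a, a < d, (⊤ : B) := by
        refine iSup_le fun a => ?_
        show bmem a (wn d) ≤ _
        rw [mem_wn]
        exact iSup_le fun ξ => iSup_le fun hξ => le_iSup_of_le ⟨ξ, hξ⟩ le_top
      by_cases hd : ∃ a, a < d
      · have h2 : (⨅ a, (VB B).mem a (wn d) ⇨ ⨆ b, (VB B).mem b (cn C) ⊓ (VB B).mem b (wn d) ⊓
            (VB B).mem a b) ≤ ⨅ a, ⨅ _ : a < d, ⨆ b, ⨆ _ : a < b ∧ b < d, C b := by
          refine le_iInf fun a => le_iInf fun ha => ?_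
          have h3 := iInf_himp_apply (B := B) (φ := fun a => (VB B).mem a (wn d))
            (ψ := fun a => ⨆ b, (VB B).mem b (cn C) ⊓ (VB B).mem b (wn d) ⊓
            (VB B).mem a b) le_rfl (wn a) le_rfl (by
              show _ ≤ bmem (wn a) (wn d)
              rw [wn_mem_wn ha]; exact le_top)
          refine h3.trans (iSup_le fun b => ?_)
          show bmem b (cn C) ⊓ bmem b (wn d) ⊓ bmem (wn a) b ≤ _
          rw [mem_cn, iSup_inf_eq, iSup_inf_eq]
          refine iSup_le fun ξ => ?_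
          have h4 : C ξ.1 ⊓ beq b (wn ξ.1) ⊓ bmem b (wn d) ⊓ bmem (wn a) b ≤
              C ξ.1 ⊓ (bmem (wn ξ.1) (wn d) ⊓ bmem (wn a) (wn ξ.1)) := by
            refine le_inf ?_ (le_inf ?_ ?_)
            · exact inf_le_left.trans (inf_le_left.trans inf_le_left)
            · exact (ext_mem_left (wn d)).of_le (x := b)
                (inf_le_left.trans (inf_le_left.trans inf_le_right))
                (inf_le_left.trans inf_le_right)
            · exact (ext_mem_right (wn a)).of_le (x := b)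
                (inf_le_left.trans (inf_le_left.trans inf_le_right)) inf_le_right
          refine h4.trans ?_
          by_cases h5 : a < ξ.1 ∧ ξ.1 < d
          · exact inf_le_left.trans (le_iSup_of_le ξ.1 (le_iSup_of_le h5 le_rfl))
          · by_cases h6 : ξ.1 < d
            · have h7 : ¬ a < ξ.1 := fun h => h5 ⟨h, h6⟩
              rw [wn_mem_wn_of_not h7, inf_bot_eq, inf_bot_eq]; exact bot_le
            · rw [wn_mem_wn_of_not h6, bot_inf_eq, inf_bot_eq]; exact bot_le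
        have h8 : tclub C ≤ (⨅ a, ⨅ _ : a < d, ⨆ b, ⨆ _ : a < b ∧ b < d, C b) ⇨ C d :=
          inf_le_right.trans (iInf_le_of_le d (iInf_le _ hd))
        obtain ⟨a, ha⟩ := hd
        refine le_trans ?_ (le_mem_cn C ha)
        refine le_trans (le_inf (inf_le_left.trans h8)
          (inf_le_right.trans (inf_le_right.trans h2))) himp_inf_le
      · have h3 : (⨆ a, (VB B).mem a (wn d)) ≤ ⊥ := h1.trans (by simp [hd])
        exact (inf_le_right.trans (inf_le_left.trans h3)).trans bot_le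
    show tclub C ⊓ (bmem d (check om1) ⊓ (⨆ a, (VB B).mem a d) ⊓
      ⨅ a, (VB B).mem a d ⇨ ⨆ b, (VB B).mem b (cn C) ⊓ (VB B).mem b d ⊓ (VB B).mem a b) ≤
        bmem d (cn C)
    rw [mem_om1, inf_assoc, iSup_inf_eq, inf_iSup_eq]
    refine iSup_le fun ξ => ?_
    have hE : Ext (fun d : BName B => (⨆ a, (VB B).mem a d) ⊓
      ⨅ a, (VB B).mem a d ⇨ ⨆ b, (VB B).mem b (cn C) ⊓ (VB B).mem b d ⊓ (VB B).mem a b) := by
      refine Ext.inf (Ext.iSup fun a => ext_VBmem_right a) (Ext.iInf fun a => ?_)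
      exact (ext_VBmem_right a).himp (Ext.iSup fun b =>
        ((Ext.const _).inf (ext_VBmem_right b)).inf (Ext.const _))
    have h1 : tclub C ⊓ (beq d (wn ξ) ⊓ ((⨆ a, (VB B).mem a d) ⊓
      ⨅ a, (VB B).mem a d ⇨ ⨆ b, (VB B).mem b (cn C) ⊓ (VB B).mem b d ⊓ (VB B).mem a b)) ≤
        bmem (wn ξ) (cn C) := by
      refine le_trans (le_inf inf_le_left ?_) (h0 ξ)
      exact hE.of_le (x := d) (inf_le_right.trans inf_le_left) (inf_le_right.trans inf_le_right)
    exact (ext_mem_left (cn C)).of_le' (x := wn ξ) (inf_le_right.trans inf_le_left) h1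

/-- the stationary set without `0` -/
noncomputable def tT (A : BName B) (ξ : W.{u}) : B := ⨆ _ : ∃ a, a < ξ, bmem (wn ξ) A

theorem isStat_le (A : BName B) : isStat (VB B) A (check om1) ≤ tstat (tT A) := by
  refine le_iInf fun C => ?_
  rw [le_himp_iff]
  have h1 : isStat (VB B) A (check om1) ⊓ tclub C ≤
      ⨆ a, (VB B).mem a A ⊓ (VB B).mem a (cn C) :=
    iInf_himp_apply (B := B) (φ := fun C => isClosedUnb (VB B) C (check om1))
      (ψ := fun C => ⨆ a, (VB B).mem a A ⊓ (VB B).mem a C) (inf_le_left.trans inf_le_right)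
      (cn C) le_rfl (inf_le_right.trans (tclub_le C))
  refine h1.trans (iSup_le fun a => ?_)
  show bmem a A ⊓ bmem a (cn C) ≤ _
  rw [mem_cn, inf_iSup_eq]
  refine iSup_le fun ξ => le_iSup_of_le ξ.1 (le_inf ?_ ?_)
  · refine le_iSup_of_le ξ.2 ?_
    exact (ext_mem_left A).of_le (x := a) (inf_le_right.trans inf_le_right) inf_le_left
  · exact inf_le_right.trans inf_le_left

/-! ### Quantifiers over the poset -/

section

variable {X : Type u} [PartialOrder X]

/-- the name of an element of the poset -/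
noncomputable def nx (x : X) : BName B := check (code x)

omit [PartialOrder X] in
theorem sup_P (v : X → B) {φ : BName B → B} (hφ : Ext φ) :
    (⨆ p, (VB B).mem p (Pn v) ⊓ φ p) = ⨆ x, v x ⊓ φ (nx x) := iSup_mem hφ (Pn v)

omit [PartialOrder X] in
theorem inf_P (v : X → B) {φ : BName B → B} (hφ : Ext φ) :
    (⨅ p, (VB B).mem p (Pn v) ⇨ φ p) = ⨅ x, v x ⇨ φ (nx x) := iInf_mem hφ (Pn v)

variable (hpos : VPosStatement.{u})

include hpos

theorem rel_nx (x y : X) :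
    (VB B).rel (rn B X) (nx x) (nx y) = ⨆ _ : x ≤ y, (⊤ : B) := (hpos B X fun _ => ⊤).2.2.2.1 x y

theorem mem_nx (v : X → B) (x : X) : (VB B).mem (nx x) (Pn v) = v x := (hpos B X v).2.2.1 x

theorem mem_Pn (v : X → B) (y : BName B) :
    (VB B).mem y (Pn v) = ⨆ x, v x ⊓ beq y (nx x) := (hpos B X v).2.1 y

theorem inf_P_rel (v : X → B) {φ : BName B → B} (hφ : Ext φ) (x : X) :
    (⨅ q, (VB B).mem q (Pn v) ⊓ (VB B).rel (rn B X) q (nx x) ⇨ φ q) =
      ⨅ y, ⨅ _ : y ≤ x, v y ⇨ φ (nx y) := by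
  have h1 : (⨅ q, (VB B).mem q (Pn v) ⊓ (VB B).rel (rn B X) q (nx x) ⇨ φ q) =
      ⨅ q, (VB B).mem q (Pn v) ⇨ ((VB B).rel (rn B X) q (nx x) ⇨ φ q) :=
    iInf_congr fun q => (himp_himp _ _ _).symm
  rw [h1, inf_P v ((ext_rel_snd _ _).himp hφ)]
  refine iInf_congr fun y => ?_
  rw [rel_nx hpos]
  by_cases h : y ≤ x
  · simp [h]
  · simp [h]

theorem sup_P_rel (v : X → B) {φ : BName B → B} (hφ : Ext φ) (x : X) :
    (⨆ q, (VB B).mem q (Pn v) ⊓ (VB B).rel (rn B X) q (nx x) ⊓ φ q) =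
      ⨆ y, ⨆ _ : y ≤ x, v y ⊓ φ (nx y) := by
  have h1 : (⨆ q, (VB B).mem q (Pn v) ⊓ (VB B).rel (rn B X) q (nx x) ⊓ φ q) =
      ⨆ q, (VB B).mem q (Pn v) ⊓ ((VB B).rel (rn B X) q (nx x) ⊓ φ q) :=
    iSup_congr fun q => inf_assoc _ _ _
  rw [h1, sup_P v ((ext_rel_snd _ _).inf hφ)]
  refine iSup_congr fun y => ?_
  rw [rel_nx hpos]
  by_cases h : y ≤ x
  · simp [h]
  · simp [h]

theorem sup_P_rel' (v : X → B) {φ : BName B → B} (hφ : Ext φ) (x : X) :
    (⨆ s, φ s ⊓ (VB B).mem s (Pn v) ⊓ (VB B).rel (rn B X) (nx x) s) =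
      ⨆ y, ⨆ _ : x ≤ y, v y ⊓ φ (nx y) := by
  have h1 : (⨆ s, φ s ⊓ (VB B).mem s (Pn v) ⊓ (VB B).rel (rn B X) (nx x) s) =
      ⨆ q, (VB B).mem q (Pn v) ⊓ ((VB B).rel (rn B X) (nx x) q ⊓ φ q) :=
    iSup_congr fun q => by
      rw [inf_comm (φ q), inf_assoc, inf_comm (φ q)]
  rw [h1, sup_P v ((ext_rel_trd _ _).inf hφ)]
  refine iSup_congr fun y => ?_
  rw [rel_nx hpos]
  by_cases h : x ≤ y
  · simp [h]
  · simp [h]

/-! ### The forcing relation -/

omit hpos in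
theorem ext_forcesMem_q (P r E a : BName B) : Ext (fun q => forcesMem (VB B) P r E q a) :=
  Ext.iInf fun _ => ((Ext.const _).inf (ext_rel_trd r _)).himp (Ext.const _)

omit hpos in
theorem ext_forcesMem_a (P r E q : BName B) : Ext (fun a => forcesMem (VB B) P r E q a) :=
  Ext.iInf fun _ => (Ext.const _).himp (Ext.iSup fun _ => (Ext.const _).inf (Ext.iSup fun _ =>
    ((ext_rel_trd E _).inf (Ext.const _)).inf (Ext.const _)))

omit hpos in
theorem ext_forcesUnb_q (P r E d : BName B) : Ext (fun q => forcesUnb (VB B) P r E q d) :=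
  Ext.iInf fun _ => (Ext.const _).himp (Ext.iInf fun _ =>
    ((Ext.const _).inf (ext_rel_trd r _)).himp (Ext.const _))

omit hpos in
theorem ext_forcesClub_p (o P r E : BName B) : Ext (fun p => forcesClub (VB B) o P r E p) :=
  (ext_forcesUnb_q P r E o).inf (Ext.iInf fun _ => (Ext.const _).himp (Ext.iInf fun q =>
    (((Ext.const _).inf (ext_rel_trd r q)).inf (Ext.const _)).himp (Ext.const _)))

theorem forcesMem_eq (v : X → B) (E a : BName B) (x : X) :
    forcesMem (VB B) (Pn v) (rn B X) E (nx x) a = ⨅ y, ⨅ _ : y ≤ x, v y ⇨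
      ⨆ t, ⨆ _ : t ≤ y, v t ⊓ ⨆ s, ⨆ _ : t ≤ s, v s ⊓ (VB B).rel E (nx s) a := by
  unfold forcesMem
  rw [inf_P_rel hpos v (φ := fun q' => ⨆ t, (VB B).mem t (Pn v) ⊓ (VB B).rel (rn B X) t q' ⊓
    ⨆ s, (VB B).rel E s a ⊓ (VB B).mem s (Pn v) ⊓ (VB B).rel (rn B X) t s)]
  · refine iInf_congr fun y => iInf_congr fun _ => ?_
    congr 1
    rw [sup_P_rel hpos v (φ := fun t => ⨆ s, (VB B).rel E s a ⊓ (VB B).mem s (Pn v) ⊓
      (VB B).rel (rn B X) t s)]
    · refine iSup_congr fun t => iSup_congr fun _ => ?_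
      congr 1
      exact sup_P_rel' hpos v (ext_rel_snd E a) t
    · exact Ext.iSup fun s => (Ext.const _).inf (ext_rel_snd _ _)
  · exact Ext.iSup fun t => ((Ext.const _).inf (ext_rel_trd _ _)).inf (Ext.const _)

/-- the forcing relation is monotone -/
theorem forcesMem_anti (v : X → B) (E a : BName B) {x y : X} (h : y ≤ x) :
    forcesMem (VB B) (Pn v) (rn B X) E (nx x) a ≤
      forcesMem (VB B) (Pn v) (rn B X) E (nx y) a := by
  rw [forcesMem_eq hpos, forcesMem_eq hpos]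
  exact le_iInf fun z => le_iInf fun hz => iInf_le_of_le z (iInf_le _ (hz.trans h))

/-- use of `forcesUnb` -/
theorem forcesUnb_apply (v : X → B) (E D : BName B) {Γ : B} {x : X}
    (h : Γ ≤ forcesUnb (VB B) (Pn v) (rn B X) E (nx x) D) (a : BName B) (ha : Γ ≤ bmem a D)
    {y : X} (hy : y ≤ x) : Γ ⊓ v y ≤ ⨆ t, ⨆ _ : t ≤ y, v t ⊓
      ⨆ b, (VB B).mem b D ⊓ (VB B).mem a b ⊓ forcesMem (VB B) (Pn v) (rn B X) E (nx t) b := by
  have h1 := iInf_himp_apply h a le_rfl ha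
  rw [inf_P_rel hpos v] at h1
  · have h2 := h1.trans ((iInf_le _ y).trans (iInf_le _ hy))
    rw [le_himp_iff] at h2
    refine h2.trans ?_
    rw [sup_P_rel hpos v]
    exact Ext.iSup fun b => (Ext.const _).inf (ext_forcesMem_q _ _ _ _)
  · exact Ext.iSup fun t => ((Ext.const _).inf (ext_rel_trd _ _)).inf (Ext.const _)

/-- proof of `forcesUnb` at `δ < ω₁` -/
theorem le_forcesUnb (v : X → B) (E : BName B) {Γ : B} {x : X} {δ : W.{u}}
    (h : ∀ ξ < δ, ∀ y ≤ x, Γ ⊓ v y ≤ ⨆ t, ⨆ _ : t ≤ y, v t ⊓ ⨆ β, ⨆ _ : ξ < β ∧ β < δ,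
      forcesMem (VB B) (Pn v) (rn B X) E (nx t) (wn β)) :
    Γ ≤ forcesUnb (VB B) (Pn v) (rn B X) E (nx x) (wn δ) := by
  unfold forcesUnb
  refine le_forall_wn ?_ fun ξ hξ => ?_
  · exact Ext.iInf fun q' => (Ext.const _).himp (Ext.iSup fun t => (Ext.const _).inf
      (Ext.iSup fun b => ((Ext.const _).inf (ext_VBmem_left b)).inf (Ext.const _)))
  · rw [inf_P_rel hpos v]
    · refine le_iInf fun y => le_iInf fun hy => ?_
      rw [le_himp_iff, sup_P_rel hpos v]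
      · refine (h ξ hξ y hy).trans (iSup_mono fun t => iSup_mono fun _ => inf_le_inf_left _ ?_)
        refine iSup_le fun β => iSup_le fun hβ => le_iSup_of_le (wn β) ?_
        refine le_inf (le_inf ?_ ?_) le_rfl
        · show _ ≤ bmem (wn β) (wn δ)
          rw [wn_mem_wn hβ.2]; exact le_top
        · show _ ≤ bmem (wn ξ) (wn β)
          rw [wn_mem_wn hβ.1]; exact le_top
      · exact Ext.iSup fun b => (Ext.const _).inf (ext_forcesMem_q _ _ _ _)
    · exact Ext.iSup fun t => ((Ext.const _).inf (ext_rel_trd _ _)).inf (Ext.const _)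

/-! ### The theorem -/

theorem ssp_at (v : X → B) (hv : TSSP v) (A E : BName B) (x : X) {Γ : B}
    (hA : Γ ≤ isStat (VB B) A (check om1)) (hx : Γ ≤ v x)
    (hE : Γ ≤ forcesClub (VB B) (check om1) (Pn v) (rn B X) E (nx x)) :
    Γ ≤ ⨆ q, ⨆ d, (VB B).mem q (Pn v) ⊓ (VB B).rel (rn B X) q (nx x) ⊓ (VB B).mem d A ⊓
      forcesMem (VB B) (Pn v) (rn B X) E q d := by
  have h1 := hv Γ x (tT A) (fun ξ r β => ⨆ _ : ξ < β,
    forcesMem (VB B) (Pn v) (rn B X) E (nx r) (wn β)) hx (hA.trans (isStat_le A)) ?_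
  · refine le_trans (le_inf le_rfl h1) ?_
    rw [inf_iSup_eq]
    refine iSup_le fun q => ?_
    rw [inf_iSup_eq]
    refine iSup_le fun hq => ?_
    rw [inf_iSup_eq]
    refine iSup_le fun δ => ?_
    refine le_iSup_of_le (nx q) (le_iSup_of_le (wn δ) ?_)
    set Δ : B := Γ ⊓ (v q ⊓ tT A δ ⊓ ⨅ ξ, ⨅ _ : ξ < δ, ⨅ t, ⨅ _ : t ≤ q,
      v t ⇨ ⨆ s, ⨆ _ : s ≤ t, v s ⊓ ⨆ r, ⨆ _ : s ≤ r, v r ⊓ ⨆ β, ⨆ _ : β < δ, ⨆ _ : ξ < β,
        forcesMem (VB B) (Pn v) (rn B X) E (nx r) (wn β)) with hΔ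
    by_cases hδ : ∃ a, a < δ
    · have hq1 : Δ ≤ (VB B).mem (nx q) (Pn v) := by
        rw [mem_nx hpos]
        exact inf_le_right.trans (inf_le_left.trans inf_le_left)
      have hq2 : Δ ≤ (VB B).rel (rn B X) (nx q) (nx x) := by
        rw [rel_nx hpos]
        exact le_iSup_of_le hq le_top
      have hT : Δ ≤ (VB B).mem (wn δ) A := by
        refine (inf_le_right.trans (inf_le_left.trans inf_le_right)).trans ?_
        exact iSup_le fun _ => le_rfl
      refine le_inf (le_inf (le_inf hq1 hq2) hT) ?_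
      have hU : Δ ≤ forcesUnb (VB B) (Pn v) (rn B X) E (nx q) (wn δ) := by
        refine le_forcesUnb hpos v E fun ξ hξ y hy => ?_
        have h2 : Δ ≤ v y ⇨ ⨆ s, ⨆ _ : s ≤ y, v s ⊓ ⨆ r, ⨆ _ : s ≤ r, v r ⊓ ⨆ β, ⨆ _ : β < δ,
            ⨆ _ : ξ < β, forcesMem (VB B) (Pn v) (rn B X) E (nx r) (wn β) := by
          refine (inf_le_right.trans inf_le_right).trans ?_
          exact (iInf_le _ ξ).trans ((iInf_le _ hξ).trans ((iInf_le _ y).trans (iInf_le _ hy)))
        rw [le_himp_iff] at h2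
        refine h2.trans (iSup_mono fun s => iSup_mono fun _ => inf_le_inf_left _ ?_)
        refine iSup_le fun r => iSup_le fun hr => inf_le_right.trans ?_
        refine iSup_le fun β => iSup_le fun hβ => iSup_le fun hξβ => ?_
        exact le_iSup_of_le β (le_iSup_of_le ⟨hξβ, hβ⟩ (forcesMem_anti hpos v E (wn β) hr))
      have h3 : Δ ≤ ⨅ d, (VB B).mem d (check om1) ⊓ (⨆ a, (VB B).mem a d) ⇨
          ⨅ q, (VB B).mem q (Pn v) ⊓ (VB B).rel (rn B X) q (nx x) ⊓
            forcesUnb (VB B) (Pn v) (rn B X) E q d ⇨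
              forcesMem (VB B) (Pn v) (rn B X) E q d :=
        inf_le_left.trans (hE.trans inf_le_right)
      have h4 := iInf_himp_apply h3 (wn δ) le_rfl (le_inf (by
        show Δ ≤ bmem (wn δ) (check om1)
        rw [wn_mem_om1]; exact le_top) (by
        obtain ⟨a, ha⟩ := hδ
        refine le_iSup_of_le (wn a) ?_
        show Δ ≤ bmem (wn a) (wn δ)
        rw [wn_mem_wn ha]; exact le_top))
      exact iInf_himp_apply h4 (nx q) le_rfl (le_inf (le_inf hq1 hq2) hU)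
    · have h5 : tT A δ = ⊥ := by
        unfold tT
        simp [hδ]
      have h6 : Δ ≤ ⊥ := by
        rw [← h5]
        exact inf_le_right.trans (inf_le_left.trans inf_le_right)
      exact h6.trans bot_le
  · intro ξ q hq
    have h2 := forcesUnb_apply hpos v E (check om1) (hE.trans inf_le_left) (wn ξ) (by
      rw [wn_mem_om1]; exact le_top) hq
    refine h2.trans (iSup_mono fun t => iSup_mono fun _ => ?_)
    rw [inf_iSup_eq]
    refine iSup_le fun b => ?_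
    show v t ⊓ (bmem b (check om1) ⊓ bmem (wn ξ) b ⊓
      forcesMem (VB B) (Pn v) (rn B X) E (nx t) b) ≤ _
    rw [mem_om1, inf_assoc, iSup_inf_eq, inf_iSup_eq]
    refine iSup_le fun β => le_iSup_of_le β (le_inf inf_le_left ?_)
    have h3 : v t ⊓ (beq b (wn β) ⊓ (bmem (wn ξ) b ⊓
        forcesMem (VB B) (Pn v) (rn B X) E (nx t) b)) ≤ bmem (wn ξ) (wn β) ⊓
          forcesMem (VB B) (Pn v) (rn B X) E (nx t) (wn β) := by
      refine le_inf ?_ ?_
      · exact (ext_mem_right (wn ξ)).of_le (x := b) (inf_le_right.trans inf_le_left)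
          (inf_le_right.trans (inf_le_right.trans inf_le_left))
      · exact (ext_forcesMem_a _ _ _ _).of_le (x := b) (inf_le_right.trans inf_le_left)
          (inf_le_right.trans (inf_le_right.trans inf_le_right))
    refine h3.trans ?_
    by_cases hξ : ξ < β
    · exact inf_le_right.trans (le_iSup_of_le hξ le_rfl)
    · rw [wn_mem_wn_of_not hξ, bot_inf_eq]; exact bot_le

end

theorem v_ssp : VPosStatement.{u} → VSspStatement.{u} := by
  intro hpos B _ X _ v _ hv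
  refine eq_top_iff.2 (le_iInf fun A => le_iInf fun E => le_iInf fun p => ?_)
  rw [le_himp_iff, top_inf_eq, mem_Pn hpos, inf_iSup_eq, iSup_inf_eq]
  refine iSup_le fun x => ?_
  set Γ : B := isStat (VB B) A (check om1) ⊓ (v x ⊓ beq p (nx x)) ⊓
    forcesClub (VB B) (check om1) (Pn v) (rn B X) E p with hΓ
  have hp : Γ ≤ beq p (nx x) := inf_le_left.trans (inf_le_right.trans inf_le_right)
  have h1 := ssp_at hpos v hv A E x (Γ := Γ) (inf_le_left.trans inf_le_left)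
    (inf_le_left.trans (inf_le_right.trans inf_le_left))
    ((ext_forcesClub_p _ _ _ _).of_le (x := p) hp inf_le_right)
  have hE : Ext (fun p => ⨆ q, ⨆ d, (VB B).mem q (Pn v) ⊓ (VB B).rel (rn B X) q p ⊓
      (VB B).mem d A ⊓ forcesMem (VB B) (Pn v) (rn B X) E q d) :=
    Ext.iSup fun q => Ext.iSup fun d =>
      (((Ext.const _).inf (ext_rel_trd _ _)).inf (Ext.const _)).inf (Ext.const _)
  exact hE.of_le' (x := nx x) hp h1

end Pool.Agent.Lib.MP_e6fef2_lc.H35
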